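import Mathlib
import Pool.Agent.H23.Stab2
import Pool.Agent.H23.Ramsey

set_option autoImplicit false
set_option maxSynthPendingDepth 3

namespace Pool.Agent.Results.MP_763321_co.Stable

open Pool.Agent.H23

/-- the half-graph of order `h`: bipartite, `inl i` adjacent to `inr j` exactly when `i ≤ j` -/
def halfGraph (h : ℕ) : SimpleGraph (Fin h ⊕ Fin h) :=
  SimpleGraph.fromRel (fun x y => ∃ i j, x = Sum.inl i ∧ y = Sum.inr j ∧ i ≤ j)

/-- `G` contains a semi-induced half-graph of order `h`: distinct vertices `a i`, `b j` with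
`a i` adjacent to `b j` exactly when `i ≤ j` (edges among the `a`s or among the `b`s are free) -/
def HasHalfGraph {V : Type} (G : SimpleGraph V) (h : ℕ) : Prop :=
  ∃ a b : Fin h → V, Function.Injective a ∧ Function.Injective b ∧ (∀ i j, a i ≠ b j) ∧
    ∀ i j, G.Adj (a i) (b j) ↔ i ≤ j

lemma nolad {V : Type} (G : SimpleGraph V) (h : ℕ) (hG : ¬ HasHalfGraph G h) :
    Stab.NoLad G (h * (h + 1)) := by
  classical
  rintro ⟨a, b, hab⟩
  have hinj : ∀ i < h * (h + 1), ∀ i' < h * (h + 1), a i = a i' → i = i' := by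
    intro i hi i' hi' e
    have h1 := (hab i' hi' i hi).1 (e ▸ (hab i hi i hi).2 le_rfl)
    have h2 := (hab i hi i' hi').1 (e ▸ (hab i' hi' i' hi').2 le_rfl)
    omega
  have hlt : ∀ (i : Fin h) (s : ℕ), s ≤ h → i.val * (h + 1) + s < h * (h + 1) := by
    intro i s hs
    have : (i.val + 1) * (h + 1) ≤ h * (h + 1) := Nat.mul_le_mul_right _ i.isLt
    nlinarith
  have hch : ∀ i : Fin h, ∃ s : Fin (h + 1), ∀ j : Fin h,
      a (i.val * (h + 1) + s) ≠ b (j.val * (h + 1) + h) := by
    intro i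
    by_contra hcon
    push Not at hcon
    choose f hf using hcon
    have : Function.Injective f := by
      intro s s' e
      have h1 := hinj _ (hlt i s (by omega)) _ (hlt i s' (by omega))
        ((hf s).trans (e ▸ (hf s').symm))
      exact Fin.ext (by omega)
    have := Fintype.card_le_of_injective f this
    simp at this
  choose s hs using hch
  have key : ∀ i j : Fin h, G.Adj (a (i.val * (h + 1) + s i)) (b (j.val * (h + 1) + h)) ↔ i ≤ j := by
    intro i j
    have hs' := (s i).isLt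
    rw [hab _ (hlt i _ (by omega)) _ (hlt j h le_rfl), Fin.le_def]
    constructor
    · intro h1
      by_contra h2
      have : (j.val + 1) * (h + 1) ≤ i.val * (h + 1) := Nat.mul_le_mul_right _ (by omega)
      nlinarith
    · intro h1
      have : i.val * (h + 1) ≤ j.val * (h + 1) := Nat.mul_le_mul_right _ h1
      omega
  refine hG ⟨fun i => a (i.val * (h + 1) + s i), fun j => b (j.val * (h + 1) + h), ?_, ?_, hs, key⟩
  · intro i i' e
    have e' : a (i.val * (h + 1) + s i) = a (i'.val * (h + 1) + s i') := e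
    exact le_antisymm ((key i i').1 (e' ▸ (key i' i').2 le_rfl))
      ((key i' i).1 (e' ▸ (key i i).2 le_rfl))
  · intro j j' e
    have e' : b (j.val * (h + 1) + h) = b (j'.val * (h + 1) + h) := e
    exact le_antisymm ((key j j').1 (e' ▸ (key j j).2 le_rfl))
      ((key j' j).1 (e' ▸ (key j' j').2 le_rfl))

lemma induced (h q : ℕ) : ∃ R : ℕ, ∀ (V : Type) (G : SimpleGraph V), G.CliqueFree q →
    HasHalfGraph G R → Nonempty (halfGraph h ↪g G) := by
  classical
  obtain ⟨R, hR⟩ := Pool.Agent.H23.ramsey Unit (Prop × Prop) (h + q)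
  refine ⟨R, fun V G hq ⟨a, b, ha, hb, hab, hadj⟩ => ?_⟩
  obtain ⟨-, ⟨P1, P2⟩, T, -, hT, -, hf⟩ := hR (Fin R) Finset.univ (fun _ => ())
    (fun v w => (G.Adj (a v) (a w), G.Adj (b v) (b w))) (by simp)
  have hno : ∀ (x : Fin R → V) (P : Prop), Function.Injective x →
      (∀ v ∈ T, ∀ w ∈ T, w < v → G.Adj (x v) (x w) = P) →
      ∀ v ∈ T, ∀ w ∈ T, ¬ G.Adj (x v) (x w) := by
    intro x P hx hP
    have hP' : ¬ P := by
      intro hp
      obtain ⟨T', h1, h2⟩ := Finset.exists_subset_card_eq (s := T) (n := q) (by omega)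
      refine hq (T'.image x) ⟨?_, by rw [Finset.card_image_of_injective _ hx, h2]⟩
      intro y hy z hz hyz
      obtain ⟨v, hv, rfl⟩ := Finset.mem_image.1 (Finset.mem_coe.1 hy)
      obtain ⟨w, hw, rfl⟩ := Finset.mem_image.1 (Finset.mem_coe.1 hz)
      rcases lt_trichotomy v w with h | h | h
      · exact ((hP w (h1 hw) v (h1 hv) h).symm ▸ hp : G.Adj (x w) (x v)).symm
      · exact absurd (congrArg x h) hyz
      · exact (hP v (h1 hv) w (h1 hw) h).symm ▸ hp
    intro v hv w hw hvw
    rcases lt_trichotomy v w with h | h | h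
    · exact hP' (hP w hw v hv h ▸ hvw.symm)
    · exact hvw.ne (congrArg x h)
    · exact hP' (hP v hv w hw h ▸ hvw)
  have h1 := hno a P1 ha (fun v hv w hw h => congrArg Prod.fst (hf v hv w hw h))
  have h2 := hno b P2 hb (fun v hv w hw h => congrArg Prod.snd (hf v hv w hw h))
  let e : Fin h ↪o Fin R := T.orderEmbOfCardLe (by omega)
  have he : ∀ i, e i ∈ T := fun i => Finset.orderEmbOfCardLe_mem _ _ i
  refine ⟨⟨⟨Sum.elim (fun i => a (e i)) (fun j => b (e j)), ?_⟩, ?_⟩⟩
  · rintro (i | i) (j | j) hh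
    · exact congrArg _ (e.injective (ha hh))
    · exact absurd hh (hab _ _)
    · exact absurd hh.symm (hab _ _)
    · exact congrArg _ (e.injective (hb hh))
  · rintro (i | i) (j | j)
    · simpa [halfGraph] using h1 _ (he i) _ (he j)
    · simpa [halfGraph] using hadj (e i) (e j)
    · simpa [halfGraph, G.adj_comm] using hadj (e j) (e i)
    · simpa [halfGraph] using h2 _ (he i) _ (he j)

theorem result : ∀ (h m : ℕ) (F : SimpleGraph (Fin m)), F.IsAcyclic → ∃ f : ℕ → ℕ,
    ∀ (n : ℕ) (G : SimpleGraph (Fin n)), IsEmpty (halfGraph h ↪g G) → IsEmpty (F ↪g G) →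
      G.chromaticNumber ≤ f G.cliqueNum := by
  intro h m F hF
  obtain ⟨T, hT, ⟨ι⟩⟩ := GS2.forest_in_tree F hF
  choose R hR using induced h
  choose D hD using Stab.rank_bound
  choose c hc using fun q => Stab.colour hT q (R q * (R q + 1)) (D (R q * (R q + 1))) 1
  refine ⟨fun k => c (k + 1), fun n G hG hfree => ?_⟩
  have hq : G.CliqueFree (G.cliqueNum + 1) := by
    intro s hs
    have := hs.isClique.card_le_cliqueNum
    rw [hs.card_eq] at this
    omega
  have hl := nolad G _ (fun hh => (hR _ _ G hq hh).elim hG.false)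
  obtain ⟨col, hcol⟩ := hc (G.cliqueNum + 1) _ G Finset.univ hl hq
    (fun ⟨e⟩ => hfree.false (e.comp ι))
    (fun u _ => ⟨{Set.univ}, ⟨by simp, by simpa using hD _ _ G hl⟩,
      fun w _ _ => ⟨Set.univ, by simp, trivial⟩⟩)
  exact SimpleGraph.Colorable.chromaticNumber_le ⟨SimpleGraph.Coloring.mk col
    fun h => hcol _ (Finset.mem_univ _) _ (Finset.mem_univ _) h⟩

end Pool.Agent.Results.MP_763321_co.Stable
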